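import Pool.Agent.Q218.SP.Lnk

/-!
Random minimum versus uniform spanning trees: for the `2 × 4` grid graph the random minimum
spanning tree is more likely to be splittable into two equal halves than the uniform spanning tree.
-/

set_option autoImplicit false

namespace Pool.Agent.Results.MP_ddaf7c_pr.GridFails

open Pool.Agent.Q218.SP

/-- The grid graph `P_a □ P_b`, the Cartesian product of the paths on `a` and `b` vertices. -/
def grid (a b : ℕ) : SimpleGraph (Fin a × Fin b) :=
  (SimpleGraph.pathGraph a).boxProd (SimpleGraph.pathGraph b)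

lemma grid_edgeSet : (grid 2 4).edgeSet = (fun i => s(sr i, ds i)) '' Set.univ := by
  ext e
  refine Sym2.ind (fun u v => ?_) e
  rw [SimpleGraph.mem_edgeSet]
  simp only [Set.image_univ, Set.mem_range]
  unfold grid
  rw [SimpleGraph.boxProd_adj, SimpleGraph.pathGraph_adj, SimpleGraph.pathGraph_adj]
  revert u v
  decide +kernel

noncomputable def φ : Fin 10 ≃ (grid 2 4).edgeSet :=
  (Equiv.ofInjective _ sd_inj).trans
    (Equiv.setCongr (by rw [grid_edgeSet, Set.image_univ]))

lemma φ_apply (i : Fin 10) : ((φ i : (grid 2 4).edgeSet) : Sym2 (Fin 2 × Fin 4)) = s(sr i, ds i) :=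
  rfl

lemma HH_empty : HH ∅ = 35712 := by
  unfold HH
  rw [Finset.sum_empty, tb_zero]

lemma pMST_grid : pMST (grid 2 4) = 248 / 315 := by
  have e1 := pMST_eq (grid 2 4) φ φ_apply
  have e2 := vol_mst sd_ne sd_inj conn_univ Splittable HH 45360 (by norm_num)
    (fun F hF => by have h := HH1 F hF; convert h) (fun F => by have h := HH2 F; convert h)
  rw [e1, e2, HH_empty]
  norm_num

lemma pUST_grid : pUST (grid 2 4) = 11 / 14 := by
  have e1 := pUST_eq (grid 2 4) φ φ_apply
  rw [e1, split_ncard, tree_ncard]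
  norm_num

/-- **For the `2 × 4` grid, `p_MST = 248/315 > 11/14 = p_UST`.**  In particular the inequality
`p_MST (P_a □ P_b) ≤ p_UST (P_a □ P_b)` does not hold for all `a, b ≥ 1` with `ab` even. -/
theorem result :
    (pMST (grid 2 4) = 248 / 315 ∧ pUST (grid 2 4) = 11 / 14) ∧
    ¬ ∀ a b : ℕ, 1 ≤ a → 1 ≤ b → Even (a * b) → pMST (grid a b) ≤ pUST (grid a b) := by
  refine ⟨⟨pMST_grid, pUST_grid⟩, fun h => ?_⟩
  have := h 2 4 (by norm_num) (by norm_num) (by decide)
  rw [pMST_grid, pUST_grid] at this
  norm_num at this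

end Pool.Agent.Results.MP_ddaf7c_pr.GridFails
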